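import Pool.Agent.Y501.SY.StmS

/-!
Job SYS-SM of helper501: differentiation under the integral for jointly smooth functions
(after `Pool.Agent.Y431.SY.HT`).
-/

set_option autoImplicit false

open Set Filter Topology MeasureTheory
open scoped Manifold ContDiff

noncomputable section

namespace Pool.Agent.Y394.SY

section gen

variable {Y : Type} [NormedAddCommGroup Y] [NormedSpace ℝ Y] [MeasurableSpace Y] [BorelSpace Y]
  [SecondCountableTopology Y] (μ : Measure Y) [IsLocallyFiniteMeasure μ] {K : Set Y} {ρ : Y → ℝ}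

omit [MeasurableSpace Y] [BorelSpace Y] [SecondCountableTopology Y] in
theorem fderiv_slice {X F : Type} [NormedAddCommGroup X] [NormedSpace ℝ X]
    [NormedAddCommGroup F] [NormedSpace ℝ F] {R : X × Y → F} (hR : ContDiff ℝ ∞ R) (x : X) (y : Y) :
    HasFDerivAt (fun x' => R (x', y))
      ((fderiv ℝ R (x, y)).comp (ContinuousLinearMap.inl ℝ X Y)) x := by
  have h1 : HasFDerivAt R (fderiv ℝ R (x, y)) (x, y) :=
    ((hR.differentiable (by simp)) (x, y)).hasFDerivAt
  exact h1.comp x (hasFDerivAt_prodMk_left x y)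

omit [MeasurableSpace Y] [BorelSpace Y] [SecondCountableTopology Y] in
theorem slice_contDiff {X F : Type} [NormedAddCommGroup X] [NormedSpace ℝ X]
    [NormedAddCommGroup F] [NormedSpace ℝ F] {R : X × Y → F} (hR : ContDiff ℝ ∞ R) :
    ContDiff ℝ ∞ (fun p : X × Y => (fderiv ℝ R (p.1, p.2)).comp
      (ContinuousLinearMap.inl ℝ X Y)) := by
  have h1 : ContDiff ℝ ∞ (fderiv ℝ R) := hR.fderiv_right (m := ∞) (by simp)
  exact h1.clm_comp contDiff_const

theorem setInt_hasFDerivAt (hρ : Continuous ρ) (hK : IsCompact K) {X F : Type}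
    [NormedAddCommGroup X] [NormedSpace ℝ X] [ProperSpace X] [NormedAddCommGroup F]
    [NormedSpace ℝ F] [CompleteSpace F] {R : X × Y → F} (hR : ContDiff ℝ ∞ R) (x₀ : X) :
    HasFDerivAt (fun x => ∫ y in K, ρ y • R (x, y) ∂μ)
      (∫ y in K, ρ y • (fderiv ℝ R (x₀, y)).comp (ContinuousLinearMap.inl ℝ X Y) ∂μ) x₀ := by
  have hcF : Continuous (fun p : X × Y => ρ p.2 • (fderiv ℝ R (p.1, p.2)).comp
      (ContinuousLinearMap.inl ℝ X Y)) :=
    (hρ.comp continuous_snd).smul (slice_contDiff hR).continuous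
  have hcR : Continuous (fun p : X × Y => ρ p.2 • R p) :=
    (hρ.comp continuous_snd).smul hR.continuous
  obtain ⟨C, hC⟩ := ((isCompact_closedBall x₀ 1).prod hK).exists_bound_of_continuousOn
    hcF.continuousOn
  refine hasFDerivAt_integral_of_dominated_of_fderiv_le (μ := μ.restrict K)
    (F := fun x y => ρ y • R (x, y))
    (F' := fun x y => ρ y • (fderiv ℝ R (x, y)).comp (ContinuousLinearMap.inl ℝ X Y))
    (bound := fun _ => C) (Metric.closedBall_mem_nhds x₀ one_pos) ?_ ?_ ?_ ?_ ?_ ?_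
  · refine Filter.Eventually.of_forall fun x => ?_
    exact (hcR.comp (Continuous.prodMk_right x)).aestronglyMeasurable
  · exact (hcR.comp (Continuous.prodMk_right x₀)).continuousOn.integrableOn_compact hK
  · exact (hcF.comp (Continuous.prodMk_right x₀)).aestronglyMeasurable
  · refine (ae_restrict_iff' hK.measurableSet).mpr (Filter.Eventually.of_forall ?_)
    exact fun y hy x hx => hC (x, y) ⟨hx, hy⟩
  · exact integrableOn_const hK.measure_lt_top.ne
  · refine Filter.Eventually.of_forall fun y x _ => (fderiv_slice hR x y).const_smul (ρ y)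

theorem contDiff_setInt_nat (hρ : Continuous ρ) (hK : IsCompact K) (n : ℕ) : ∀ (X F : Type)
    [NormedAddCommGroup X] [NormedSpace ℝ X] [ProperSpace X] [NormedAddCommGroup F]
    [NormedSpace ℝ F] [CompleteSpace F] (R : X × Y → F), ContDiff ℝ ∞ R →
    ContDiff ℝ n (fun x : X => ∫ y in K, ρ y • R (x, y) ∂μ) := by
  induction n with
  | zero =>
    intro X F _ _ _ _ _ _ R hR
    have : ((0 : ℕ) : WithTop ℕ∞) = 0 := rfl
    rw [this, contDiff_zero]
    exact continuous_parametric_integral_of_continuous (f := fun x y => ρ y • R (x, y))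
      ((hρ.comp continuous_snd).smul hR.continuous) hK
  | succ n ih =>
    intro X F _ _ _ _ _ _ R hR
    have : (((n + 1 : ℕ) : ℕ) : WithTop ℕ∞) = (n : WithTop ℕ∞) + 1 := by norm_num
    rw [this, contDiff_succ_iff_fderiv]
    refine ⟨fun x => (setInt_hasFDerivAt μ hρ hK hR x).differentiableAt, by simp, ?_⟩
    have e : fderiv ℝ (fun x : X => ∫ y in K, ρ y • R (x, y) ∂μ) = fun x =>
        ∫ y in K, ρ y • (fderiv ℝ R (x, y)).comp (ContinuousLinearMap.inl ℝ X Y) ∂μ := by
      funext x
      exact (setInt_hasFDerivAt μ hρ hK hR x).fderiv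
    rw [e]
    exact ih X (X →L[ℝ] F) _ (slice_contDiff hR)

theorem contDiff_setInt (hρ : Continuous ρ) (hK : IsCompact K) {X F : Type}
    [NormedAddCommGroup X] [NormedSpace ℝ X] [ProperSpace X] [NormedAddCommGroup F]
    [NormedSpace ℝ F] [CompleteSpace F] {R : X × Y → F} (hR : ContDiff ℝ ∞ R) :
    ContDiff ℝ ∞ (fun x : X => ∫ y in K, ρ y • R (x, y) ∂μ) := by
  rw [contDiff_infty]
  exact fun n => contDiff_setInt_nat μ hρ hK n X F R hR

end gen

section cut

variable {V W : Type} [NormedAddCommGroup V] [NormedSpace ℝ V] [FiniteDimensional ℝ V]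
  [NormedAddCommGroup W] [NormedSpace ℝ W]

/-- extension of a smooth function from a neighbourhood of a compact set -/
theorem exists_ext {Ω t : Set V} {F : V → W} (hΩ : IsOpen Ω) (hF : ContDiffOn ℝ ∞ F Ω)
    (ht : IsCompact t) (htΩ : t ⊆ Ω) : ∃ G : V → W, ContDiff ℝ ∞ G ∧ ∀ q ∈ t, G q = F q := by
  have : ProperSpace V := FiniteDimensional.proper_real V
  obtain ⟨δ, hδ, hsub⟩ := ht.exists_cthickening_subset_open hΩ htΩ
  have hdis : Disjoint (Metric.thickening δ t)ᶜ t := by
    rw [disjoint_compl_left_iff_subset]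
    exact Metric.self_subset_thickening hδ t
  obtain ⟨f, hf0, hf1, -⟩ := exists_contMDiffMap_zero_one_of_isClosed 𝓘(ℝ, V) (n := (⊤ : ℕ∞))
    Metric.isOpen_thickening.isClosed_compl ht.isClosed hdis
  have hfs : ContDiff ℝ ∞ (f : V → ℝ) := f.contMDiff.contDiff
  have hts : tsupport (f : V → ℝ) ⊆ Ω := by
    refine Subset.trans ?_ hsub
    refine closure_minimal ?_ Metric.isClosed_cthickening
    intro x hx
    by_contra hcon
    apply hx
    exact hf0 (fun h => hcon (Metric.thickening_subset_cthickening δ t h))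
  refine ⟨fun q => f q • F q, ?_, ?_⟩
  · rw [contDiff_iff_contDiffAt]
    intro x
    by_cases hx : x ∈ Ω
    · exact hfs.contDiffAt.smul (hF.contDiffAt (hΩ.mem_nhds hx))
    · have h2 := notMem_tsupport_iff_eventuallyEq.mp (fun h => hx (hts h))
      refine (contDiffAt_const (c := (0 : W))).congr_of_eventuallyEq ?_
      filter_upwards [h2] with q hq
      rw [hq]
      simp
  · intro q hq
    have h1 : f q = 1 := hf1 hq
    show f q • F q = F q
    rw [h1, one_smul]

end cut

open Pool.Agent.Y501.SY in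
/-- differentiation under the integral for jointly smooth functions -/
theorem t_SM : Pool.Agent.Y501.SY.S_SM := by
  intro d W _ _ _ ρ F p₀ R Ω hρ hρ0 hΩ hF hK
  have : CompleteSpace W := FiniteDimensional.complete ℝ W
  set K : Set (E d) := Metric.closedBall 0 R with hKd
  have hKc : IsCompact K := isCompact_closedBall 0 R
  -- the tube
  obtain ⟨u, v, -, hv, hKu, hpv, huv⟩ := generalized_tube_lemma hKc (isCompact_singleton (x := p₀))
    hΩ (by
      rintro ⟨y, p⟩ ⟨hy, hp⟩
      have hp' : p = p₀ := hp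
      have hy' : ‖y‖ ≤ R := by simpa [hKd] using hy
      rw [hp']
      exact hK y hy')
  obtain ⟨r, hr, hrv⟩ := Metric.nhds_basis_closedBall.mem_iff.1
    (hv.mem_nhds (hpv (mem_singleton p₀)))
  have htΩ : K ×ˢ Metric.closedBall p₀ r ⊆ Ω :=
    (prod_mono hKu hrv).trans huv
  obtain ⟨G, hG, hGF⟩ := exists_ext hΩ hF (hKc.prod (isCompact_closedBall p₀ r)) htΩ
  -- exchange of the factors
  let R' : E d × E d → W := fun q => G (q.2, q.1)
  have hR' : ContDiff ℝ ∞ R' := hG.comp (contDiff_snd.prodMk contDiff_fst)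
  have hρK : ∀ y, y ∉ K → ρ y = 0 := by
    intro y hy
    apply hρ0
    have : ¬ ‖y‖ ≤ R := by simpa [hKd] using hy
    linarith
  have heq : ∀ p ∈ Metric.closedBall p₀ r,
      ∫ y, ρ y • F (y, p) = ∫ y in K, ρ y • R' (p, y) := by
    intro p hp
    have h1 : ∫ y, ρ y • F (y, p) = ∫ y in K, ρ y • F (y, p) := by
      symm
      apply setIntegral_eq_integral_of_forall_compl_eq_zero
      intro y hy
      rw [hρK y hy, zero_smul]
    rw [h1]
    apply setIntegral_congr_fun hKc.measurableSet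
    intro y hy
    show ρ y • F (y, p) = ρ y • G (y, p)
    rw [hGF (y, p) ⟨hy, hp⟩]
  have hev : (fun p => ∫ y, ρ y • F (y, p)) =ᶠ[𝓝 p₀] fun p => ∫ y in K, ρ y • R' (p, y) := by
    filter_upwards [Metric.closedBall_mem_nhds p₀ hr] with p hp
    exact heq p hp
  refine ⟨((contDiff_setInt volume hρ hKc hR').contDiffAt).congr_of_eventuallyEq hev, ?_⟩
  have h2 := (setInt_hasFDerivAt volume hρ hKc hR' p₀).congr_of_eventuallyEq hev
  refine h2.congr_fderiv ?_
  have h3 : ∫ y, ρ y • fderiv ℝ (fun p => F (y, p)) p₀ =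
      ∫ y in K, ρ y • fderiv ℝ (fun p => F (y, p)) p₀ := by
    symm
    apply setIntegral_eq_integral_of_forall_compl_eq_zero
    intro y hy
    rw [hρK y hy, zero_smul]
  rw [h3]
  apply setIntegral_congr_fun hKc.measurableSet
  intro y hy
  show ρ y • _ = ρ y • fderiv ℝ (fun p => F (y, p)) p₀
  congr 1
  have h4 : (fun p => F (y, p)) =ᶠ[𝓝 p₀] fun p => R' (p, y) := by
    filter_upwards [Metric.closedBall_mem_nhds p₀ hr] with p hp
    exact (hGF (y, p) ⟨hy, hp⟩).symm
  rw [h4.fderiv_eq, (fderiv_slice hR' p₀ y).fderiv]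

end Pool.Agent.Y394.SY
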